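import Mathlib
import Pool.Agent.Y203.QC.Base
import Pool.Agent.Helper961.Aub.REtick

set_option autoImplicit false

open Set Filter Topology

namespace Pool.Agent.Y203.QC

open Pool.Agent.Aub (mm lam Stk dt stp Sc S1 S2 Qx gT gt cT ct hC hX Dg Ty stg rho mu posn peel cE cF
  DD rb subTy subP subC sub broken)
open Pool.Agent.Aub (R04_hC_id R04_hX_id R04_peel0 R04_peel1 R04_peeld R04_peel0' R04_peel1'
  R04_peeld' R04_ne R04_cases R04_pay)

theorem Y290_kap0 : kap 0 ≤ (bb : ℝ) ^ 2 := by norm_num [kap, mm, MM, bb]
theorem Y290_kap1 : kap 1 ≤ (bb : ℝ) := by norm_num [kap, mm, MM, bb]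
theorem Y290_kap2 : kap 2 ≤ 1 := by norm_num [kap, mm, MM, bb]
theorem Y290_kap_nonneg (k : Fin 3) : 0 ≤ kap k := by
  unfold kap MM mm bb
  apply div_nonneg <;> norm_num

theorem Y290_value (D g : Fin 3 → ℤ) (h : ∀ k, D k ≤ g k) :
    Vz D + ∑ k, (if D k < g k then kap k else 0) ≤ Vz g := by
  rw [Fin.sum_univ_three]
  have h0 := R04_pay (h 0) Y290_kap0 (Y290_kap_nonneg 0)
  have h1 := R04_pay (h 1) Y290_kap1 (Y290_kap_nonneg 1)
  have h2 := R04_pay (h 2) Y290_kap2 (Y290_kap_nonneg 2)
  unfold Vz
  linarith

/-- TARGET -/
theorem Y290_idem (t : ℝ) : hX (hX t) = hX t := by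
  have hm : (0 : ℝ) ≤ (mm : ℝ) := Nat.cast_nonneg _
  refine R04_hX_id ?_ ?_
  · unfold hX; exact le_max_left _ _
  · unfold hX; exact max_le (by linarith) (min_le_left _ _)

theorem etick {δ : Fin 3} (hδ : δ ≠ 0) {p : Fin 3} {z z1 : Stk} {β : ℝ}
    (hb : rb Ty.E true (posn δ Ty.E p) z = some β) (h : TickRel δ Ty.E p z z1) :
    rb Ty.F false (posn δ Ty.F (p + δ)) z1 = some (1 - β) ∧
    ¬ broken Ty.F false (posn δ Ty.F (p + δ)) (1 - β) z1 ∧
    subTy Ty.F (1 - β) = subTy Ty.E β ∧ subP δ Ty.F (p + δ) = subP δ Ty.E p ∧
    ∃ (cr' : ℝ) (f' : Fl), Md (subTy Ty.E β) (subP δ Ty.E p) 0 cr' f'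
        (sub δ Ty.E true p β z) (sub δ Ty.F false (p + δ) (1 - β) z1) ∧
      Vz (DD Ty.F false (posn δ Ty.F (p + δ)) z1) + cr'
        ≤ Vz (DD Ty.E true (posn δ Ty.E p) z) + f'.deb := by
  obtain ⟨hsd, hps, hpd⟩ := R04_ne δ p hδ
  have e1 : posn δ Ty.E p = p - δ := by simp [posn]
  have e2 : posn δ Ty.F (p + δ) = p + δ := by simp [posn]
  have r1 : rho Ty.E true = 7/32 := by norm_num [rho, stg]
  have r2 : rho Ty.F false = 5/32 := by norm_num [rho, stg]
  have m1 : mu Ty.E true = 0 := by norm_num [mu, stg]
  have m2 : mu Ty.F false = 1/16 := by norm_num [mu, stg]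
  have p1 : subP δ Ty.E p = p + δ := by simp [subP]
  have p2 : subP δ Ty.F (p + δ) = p + δ := by simp [subP]
  obtain ⟨hp, hE, -⟩ := h
  have hMv := hE rfl
  rw [e1] at hb
  have hβ : (β = 0 ∧ z (p - δ) 0 ≤ 7/32) ∨ (β = 1 ∧ 25/32 ≤ z (p - δ) 0) := by
    unfold rb at hb
    rw [r1] at hb
    split_ifs at hb with h1 h2
    · left; exact ⟨(Option.some.inj hb).symm, h1⟩
    · right; exact ⟨(Option.some.inj hb).symm, by linarith⟩
  have hM : MvB (p - δ) (p + δ) β z z1 := by
    rcases hβ with ⟨rfl, h1⟩ | ⟨rfl, h1⟩
    · exact hMv.1 (by linarith)
    · exact hMv.2 (by linarith)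
  have hβ' : β = 0 ∨ β = 1 := hβ.imp And.left And.left
  rw [e1, e2, p1, p2]
  have hDD1 : DD Ty.E true (p - δ) z = fun k => Dg 0 (z (p - δ) (dt k)) := by
    unfold DD; rw [m1]
  have hDD2 : DD Ty.F false (p + δ) z1 = fun k => Dg (1/16) (z1 (p + δ) (dt k)) := by
    unfold DD; rw [m2]
  have hsub1 : sub δ Ty.E true p β z = peel (p - δ) β (subC Ty.E true β (p - δ) z)
      (fun k => Dg 0 (z (p - δ) (dt k))) z := by
    unfold sub; rw [e1, hDD1]
  have hsub2 : sub δ Ty.F false (p + δ) (1 - β) z1 = peel (p + δ) (1 - β)
      (subC Ty.F false (1 - β) (p + δ) z1) (fun k => Dg (1/16) (z1 (p + δ) (dt k))) z1 := by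
    unfold sub; rw [e2, hDD2]
  rw [hsub1, hsub2, hDD1, hDD2]
  have hcase := fun i => R04_cases δ p i hδ
  generalize hs : p - δ = s at *
  generalize hd : p + δ = d at *
  obtain ⟨b1, b2, b3, b4, b5, b6, b7, b8⟩ := hM
  obtain ⟨f, g, hfd, hfc, hV, hk⟩ := b8
  have hlam : (0:ℝ) < lam := by norm_num [lam]
  rw [abs_le] at b2
  have hC0 : hC (z1 d 0) = z1 d 0 := by
    apply R04_hC_id
    · rcases hβ' with rfl | rfl <;> linarith [b2.1, b2.2]
    · rcases hβ' with rfl | rfl <;> linarith [b2.1, b2.2]
  refine ⟨?_, ?_, ?_, rfl, ?_⟩
  · unfold rb
    rw [r2]
    rcases hβ' with rfl | rfl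
    · rw [if_neg (by linarith [b2.1]), if_pos (by linarith [b2.1]), sub_zero]
    · rw [if_pos (by linarith [b2.2]), sub_self]
  · rintro ⟨-, h1, h2⟩
    rw [r2] at h2
    have hβ1 : β = 1 := by linarith
    have h3 := (abs_le.1 (b6 hβ1).1).2
    exact h2 (by linarith)
  · rcases hβ' with rfl | rfl <;> simp [subTy]
  · refine ⟨∑ k, (if Dg (1/16) (z1 d (dt k)) < g k then kap k else 0) + f.cre, f, ?_, ?_⟩
    · refine ⟨le_rfl, ?_, ?_, ?_, ?_⟩
      · -- bit b
        intro i
        rcases hcase i with rfl | rfl | rfl
        · rw [R04_peel0' hpd, R04_peel0' hps, hp]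
          simp
        · rw [R04_peel0' hsd, R04_peel0, b1]
          simp
        · rw [R04_peel0, R04_peel0' hsd.symm, hC0, b3]
          simp
      · -- bit c
        intro i
        rcases hcase i with rfl | rfl | rfl
        · left
          rw [R04_peel1' hpd, R04_peel1' hps, hp]
          simp
        · rw [R04_peel1' hsd, R04_peel1]
          have hc : subC Ty.E true β i z = cE (7/32) (z i 1) := by
            unfold subC
            rw [if_neg (by simp), r1]
          rw [hc]
          unfold cE
          split_ifs with h1 h2
          · left
            rw [b4 (by linarith)]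
            simp
          · left
            rw [b5 (by linarith)]
            simp
          · right
            constructor <;> norm_num
        · rw [R04_peel1, R04_peel1' hsd.symm]
          rcases hβ' with hb0 | hb1
          · have hc : subC Ty.F false (1 - β) i z1 = cF (5/32) (z1 i 1) := by
              unfold subC
              rw [if_pos (by simp [hb0]), r2]
            rw [hc]
            obtain ⟨c1, c2⟩ := b7 hb0
            by_cases h1 : z i 1 ≤ 1/4
            · left
              obtain ⟨a1, a2⟩ := c1 h1
              rw [abs_le] at a1
              have h3 : hC (z1 i 1) = z1 i 1 :=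
                R04_hC_id (by linarith [a1.1]) (by linarith [a1.2])
              have h4 : hC (z i 1) ≤ 1/4 := by
                unfold hC
                exact max_le (by norm_num) ((min_le_right _ _).trans h1)
              unfold cF
              rw [if_neg (by rintro ⟨h5, -⟩; linarith [a1.1]), if_pos
                ⟨by linarith [a1.1], by rw [h3, a2]; exact h4⟩, h3, a2]
              simp
            · by_cases h2 : 3/4 ≤ z i 1
              · left
                obtain ⟨a1, a2⟩ := c2 h2
                rw [abs_le] at a1
                have h3 : hC (z1 i 1) = z1 i 1 :=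
                  R04_hC_id (by linarith [a1.1]) (by linarith [a1.2])
                have h4 : 3/4 ≤ hC (z i 1) := by
                  unfold hC
                  exact le_max_of_le_right (le_min (by norm_num) h2)
                unfold cF
                rw [if_pos ⟨by linarith [a1.2], by rw [h3, a2]; exact h4⟩, h3, a2]
                simp
              · right
                push Not at h1 h2
                have h3 : hC (z i 1) = z i 1 := R04_hC_id (by linarith) (by linarith)
                rw [h3]
                constructor <;> linarith
          · left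
            have hc : subC Ty.F false (1 - β) i z1 = cE (5/32) (z1 i 1) := by
              unfold subC
              rw [if_neg (by simp [hb1]), r2]
            obtain ⟨a1, a2⟩ := b6 hb1
            rw [abs_le] at a1
            have h3 : hC (z1 i 1) = z1 i 1 :=
              R04_hC_id (by linarith [a1.1]) (by linarith [a1.2])
            rw [hc]
            unfold cE
            rw [if_pos (by linarith [a1.2]), h3, a2]
            simp
      · -- debit or credit
        intro hf
        have h12 : β = 0 ∧ (z d 0 ≤ 1/8 ∨ 7/8 ≤ z d 0) := by
          cases f with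
          | n => exact absurd rfl hf
          | d => exact ⟨(hfd rfl).1, (hfd rfl).2.1⟩
          | c => exact ⟨(hfc rfl).1, (hfc rfl).2.1⟩
        obtain ⟨h1, h2⟩ := h12
        refine ⟨by simp [subTy, h1], ?_⟩
        rw [R04_peel0' hsd.symm]
        rcases h2 with h2 | h2
        · left
          unfold hC
          rw [add_zero]
          exact max_le (by norm_num) ((min_le_right _ _).trans h2)
        · right
          unfold hC
          rw [sub_zero]
          exact le_max_of_le_right (le_min (by norm_num) h2)
      · refine ⟨fun i k => if i = d ∧ Dg (1/16) (z1 d (dt k)) < g k then kap k else 0, ?_, ?_, ?_⟩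
        · intro i k
          show 0 ≤ if _ then kap k else 0
          split_ifs
          · exact Y290_kap_nonneg k
          · exact le_rfl
        · have hsum : ∑ i, ∑ k, (if i = d ∧ Dg (1/16) (z1 d (dt k)) < g k then kap k else 0) =
              ∑ k, (if Dg (1/16) (z1 d (dt k)) < g k then kap k else 0) := by
            rw [Finset.sum_eq_single d]
            · simp
            · intro i _ hi
              simp [hi]
            · intro h
              exact absurd (Finset.mem_univ d) h
          rw [hsum]
        · intro i k
          rcases hcase i with rfl | rfl | rfl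
          · rw [if_neg (fun h => hpd h.1)]
            refine ⟨fun _ => Or.inr ?_, fun h => by simp at h, fun h => by simp at h⟩
            rw [R04_peeld' hpd, R04_peeld' hps, hp, add_zero]
            exact le_max_left _ _
          · rw [if_neg (fun h => hsd h.1)]
            refine ⟨fun _ => Or.inr ?_, fun h => by simp at h, fun h => by simp at h⟩
            rw [R04_peeld' hsd, R04_peeld, add_zero]
            exact (hk k).1
          · obtain ⟨-, k2, k3, k4, k5⟩ := hk k
            have hmm : (0:ℝ) ≤ mm := Nat.cast_nonneg _
            have hbb : (bb : ℝ) = mm - 1 := by norm_num [bb, mm]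
            have hmm1 : (mm : ℝ) = 4096 := by norm_num [mm]
            have hXid : hX (z1 i (dt k)) = z1 i (dt k) :=
              R04_hX_id (by linarith) (by linarith)
            rw [R04_peeld, R04_peeld' hsd.symm, hXid]
            rcases k4.lt_or_eq with hlt | heq
            · -- payment
              have hpd' : kap k ≤ (if i = i ∧ Dg (1/16) (z1 i (dt k)) < g k then kap k else 0) := by
                rw [if_pos ⟨rfl, hlt⟩]
              refine ⟨fun _ => Or.inl hpd', ?_, fun _ => Or.inl hpd'⟩
              intro hF
              have hF' : k = 0 ∧ f = Fl.d := by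
                by_cases hk0 : k = 0
                · rw [if_pos ⟨rfl, hk0⟩] at hF
                  exact ⟨hk0, hF⟩
                · rw [if_neg (fun h => hk0 h.2)] at hF
                  cases hF
              obtain ⟨-, -, h4, h5⟩ := hfd hF'.2
              left
              refine ⟨?_, Or.inr hpd'⟩
              have hk0 := hF'.1
              subst hk0
              have h6 : hX (z i (dt 0)) = z i 2 :=
                R04_hX_id (show -1/4 ≤ z i 2 by linarith) (show z i 2 ≤ mm + 1/2 by linarith)
              rw [h6, sub_zero]
              exact le_max_of_le_left h4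
            · have hle := k5 heq
              rw [← heq] at hle
              refine ⟨fun hF => Or.inr ?_, ?_, ?_⟩
              · have h1 : (if k = 0 then f.chg else 0) = 0 := by
                  split_ifs with hk0
                  · rw [if_pos ⟨rfl, hk0⟩] at hF
                    rw [hF]
                    rfl
                  · rfl
                rw [h1, add_zero, Y290_idem] at hle
                rw [add_zero]
                exact hle
              · intro hF
                have hF' : k = 0 ∧ f = Fl.d := by
                  by_cases hk0 : k = 0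
                  · rw [if_pos ⟨rfl, hk0⟩] at hF
                    exact ⟨hk0, hF⟩
                  · rw [if_neg (fun h => hk0 h.2)] at hF
                    cases hF
                obtain ⟨-, -, h4, h5⟩ := hfd hF'.2
                obtain ⟨hk0, hfe⟩ := hF'
                subst hk0
                left
                have hch : (if (0 : Fin 3) = 0 then f.chg else 0) = -(bb : ℝ) := by
                  rw [if_pos rfl, hfe]; rfl
                rw [hch] at hle
                have h6 : hX (z i (dt 0)) = z i 2 :=
                  R04_hX_id (show -1/4 ≤ z i 2 by linarith) (show z i 2 ≤ mm + 1/2 by linarith)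
                have h7 : hX (z i 2 + -(bb : ℝ)) = z i 2 - bb := by
                  have := R04_hX_id (t := z i 2 - bb) (by linarith) (by linarith)
                  rw [← sub_eq_add_neg]
                  exact this
                rw [h6, h7] at hle
                rw [h6]
                refine ⟨?_, Or.inl ⟨?_, ?_⟩⟩
                · rw [sub_zero]
                  exact le_max_of_le_left h4
                · rw [add_zero]
                  exact hle
                · refine hle.trans (max_le ?_ ?_)
                  · linarith
                  · norm_num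
              · intro hF
                right
                have hF' : k = 0 ∧ f = Fl.c := by
                  by_cases hk0 : k = 0
                  · rw [if_pos ⟨rfl, hk0⟩] at hF
                    exact ⟨hk0, hF⟩
                  · rw [if_neg (fun h => hk0 h.2)] at hF
                    cases hF
                obtain ⟨-, -, h4⟩ := hfc hF'.2
                obtain ⟨hk0, hfe⟩ := hF'
                subst hk0
                have hch : (if (0 : Fin 3) = 0 then f.chg else 0) = (bb : ℝ) := by
                  rw [if_pos rfl, hfe]; rfl
                rw [hch] at hle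
                have hz2 : z i (dt 0) ≤ 1/4 := h4
                have h8 : hX (hX (z i (dt 0)) + bb) ≤ max (hX (z i (dt 0))) 0 + bb := by
                  have h9 : hX (hX (z i (dt 0)) + bb) ≤ max (-1/4) (hX (z i (dt 0)) + bb) := by
                    conv_lhs => unfold hX
                    exact max_le_max_left _ (min_le_right _ _)
                  refine h9.trans (max_le ?_ ?_)
                  · have h10 : (0:ℝ) ≤ max (hX (z i (dt 0))) 0 := le_max_right _ _
                    linarith
                  · have h10 : hX (z i (dt 0)) ≤ max (hX (z i (dt 0))) 0 := le_max_left _ _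
                    linarith
                have h11 : hX (z i (dt 0)) ≤ 1/4 := by
                  unfold hX
                  exact max_le (by norm_num) ((min_le_right _ _).trans hz2)
                have h12 : max (hX (z i (dt 0))) 0 ≤ 1/4 := max_le h11 (by norm_num)
                have h13 : (0:ℝ) ≤ max (hX (z i (dt 0))) 0 := le_max_right _ _
                refine ⟨?_, ?_⟩
                · rw [add_zero]
                  refine hle.trans (max_le h8 ?_)
                  linarith
                · refine hle.trans (max_le ?_ ?_)
                  · linarith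
                  · linarith
    · have h1 := Y290_value (fun k => Dg (1/16) (z1 d (dt k))) g (fun k => (hk k).2.2.2.1)
      linarith

end Pool.Agent.Y203.QC
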