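import Mathlib
import Pool.Agent.Y203.QC.Base
import Pool.Agent.Helper961.Aub.RFtick

set_option autoImplicit false

open Set Filter Topology

namespace Pool.Agent.Y203.QC

open Pool.Agent.Aub (mm lam Stk dt stp Sc S1 S2 Qx gT gt cT ct hC hX Dg Ty stg rho mu posn peel cE cF
  DD rb subTy subP subC sub broken)
open Pool.Agent.Aub (R05_hC_idem R05_hC_id R05_hC_le R05_le_hC R05_hX_id R05_hX_mem R05_hX_idem
  R05_Dg R05_cl R05_peel_cl R05_dat_ne R05_peel_one)

theorem Y290_dat {s d : Fin 3} {β : ℝ} {z z1 w ζ : Stk} (hws : R05_cl w z s) (hwd : R05_cl w z d)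
    (hζs : R05_cl ζ z1 s) (hζd : R05_cl ζ z1 d) (h : DatRel s d β z z1) : DatRel s d β w ζ := by
  obtain ⟨f, g, h1, h1c, h2, h3⟩ := h
  have hm0 : (0:ℝ) ≤ (mm:ℝ) := Nat.cast_nonneg _
  have hm4 : (1:ℝ) ≤ (mm:ℝ) := by norm_num [mm]
  have hw2 : w d 2 = hX (z d 2) := hwd.2.2 0
  have hbit : (z d 0 ≤ 1/8 ∨ 7/8 ≤ z d 0) → (w d 0 ≤ 1/8 ∨ 7/8 ≤ w d 0) := by
    intro e2
    rw [hwd.1]
    rcases e2 with e2 | e2
    · left
      exact (R05_hC_le (by norm_num) (by norm_num)).2 e2
    · right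
      exact (R05_le_hC (by norm_num) (by norm_num)).2 e2
  refine ⟨f, g, ?_, ?_, ?_, ?_⟩
  · intro hdb
    obtain ⟨e1, e2, e3, e4⟩ := h1 hdb
    refine ⟨e1, hbit e2, ?_, ?_⟩
    · rw [hw2, R05_hX_id (by linarith) (by linarith)]
      exact e3
    · rw [hw2, R05_hX_id (by linarith) (by linarith)]
      exact e4
  · intro hdb
    obtain ⟨e1, e2, e3⟩ := h1c hdb
    refine ⟨e1, hbit e2, ?_⟩
    rw [hw2]
    unfold hX
    exact max_le (by norm_num) ((min_le_right _ _).trans e3)
  · have e : (fun k => Dg 0 (w s (dt k))) = fun k => Dg 0 (z s (dt k)) := by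
      funext k
      rw [hws.2.2 k, R05_Dg]
    rw [e]
    exact h2
  · intro k
    obtain ⟨e1, e2, e3, e4, e5⟩ := h3 k
    have hid : ζ d (dt k) = z1 d (dt k) := by
      rw [hζd.2.2 k]
      exact R05_hX_id (by linarith) (by linarith)
    refine ⟨?_, ?_, ?_, ?_, ?_⟩
    · rw [hζs.2.2 k, R05_hX_idem, hws.2.2 k, R05_hX_idem, R05_Dg]
      exact e1
    · rw [hid]
      exact e2
    · rw [hid]
      exact e3
    · rw [hid]
      exact e4
    · rw [hid]
      intro hg
      refine (e5 hg).trans ?_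
      rw [hwd.2.2 k, R05_hX_idem]

theorem Y290_mvB {s d : Fin 3} {β : ℝ} (hβ : β = 0 ∨ β = 1) {z z1 w ζ : Stk}
    (hws : R05_cl w z s) (hwd : R05_cl w z d)
    (hζs : R05_cl ζ z1 s) (hζd : R05_cl ζ z1 d) (h : MvB s d β z z1) : MvB s d β w ζ := by
  obtain ⟨h1, h2, h3, h4, h5, h6, h7, h8⟩ := h
  have hb0 : 0 ≤ β := by
    rcases hβ with h | h
    · rw [h]
    · rw [h]; norm_num
  have hb1 : β ≤ 1 := by
    rcases hβ with h | h
    · rw [h]; norm_num
    · rw [h]
  have hz0 : ζ d 0 = z1 d 0 := by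
    rw [hζd.1]
    have := abs_le.1 h2
    exact R05_hC_id (by linarith [this.1]) (by linarith [this.2])
  have hz1 : ∀ a : ℝ, 0 ≤ a → a ≤ 1 → |z1 d 1 - a| ≤ 1/16 → ζ d 1 = z1 d 1 := by
    intro a ha ha' haa
    rw [hζd.2.1]
    have := abs_le.1 haa
    exact R05_hC_id (by linarith [this.1]) (by linarith [this.2])
  refine ⟨?_, ?_, ?_, ?_, ?_, ?_, ?_, Y290_dat hws hwd hζs hζd h8⟩
  · rw [hζs.1, hws.1, R05_hC_idem, R05_hC_idem]
    exact h1
  · rw [hz0]
    exact h2
  · rw [hz0, hwd.1, R05_hC_idem]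
    exact h3
  · intro hc
    rw [hws.2.1, R05_hC_le (by norm_num) (by norm_num)] at hc
    rw [hζs.2.1, hws.2.1, R05_hC_idem, R05_hC_idem]
    exact h4 hc
  · intro hc
    rw [hws.2.1, R05_le_hC (by norm_num) (by norm_num)] at hc
    rw [hζs.2.1, hws.2.1, R05_hC_idem, R05_hC_idem]
    exact h5 hc
  · intro hb
    obtain ⟨e1, e2⟩ := h6 hb
    have := hz1 0 le_rfl zero_le_one (by rw [sub_zero]; exact e1)
    rw [this, hwd.2.1, R05_hC_idem]
    exact ⟨e1, e2⟩
  · intro hb
    obtain ⟨e1, e2⟩ := h7 hb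
    refine ⟨?_, ?_⟩
    · intro hc
      rw [hwd.2.1, R05_hC_le (by norm_num) (by norm_num)] at hc
      obtain ⟨f1, f2⟩ := e1 hc
      have := hz1 1 zero_le_one le_rfl f1
      rw [this, hwd.2.1, R05_hC_idem]
      exact ⟨f1, f2⟩
    · intro hc
      rw [hwd.2.1, R05_le_hC (by norm_num) (by norm_num)] at hc
      obtain ⟨f1, f2⟩ := e2 hc
      have := hz1 0 le_rfl zero_le_one (by rw [sub_zero]; exact f1)
      rw [this, hwd.2.1, R05_hC_idem]
      exact ⟨f1, f2⟩

theorem Y290_mv {s d : Fin 3} {z z1 w ζ : Stk}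
    (hws : R05_cl w z s) (hwd : R05_cl w z d)
    (hζs : R05_cl ζ z1 s) (hζd : R05_cl ζ z1 d) (h : Mv s d z z1) : Mv s d w ζ := by
  refine ⟨?_, ?_⟩
  · intro hc
    rw [hws.1, R05_hC_le (by norm_num) (by norm_num)] at hc
    exact Y290_mvB (Or.inl rfl) hws hwd hζs hζd (h.1 hc)
  · intro hc
    rw [hws.1, R05_le_hC (by norm_num) (by norm_num)] at hc
    exact Y290_mvB (Or.inr rfl) hws hwd hζs hζd (h.2 hc)

/-- TARGET -/
theorem ftick {δ : Fin 3} (hδ : δ ≠ 0) {p : Fin 3} {z z1 : Stk} {β : ℝ}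
    (hb : rb Ty.F true (posn δ Ty.F p) z = some β) (h : TickRel δ Ty.F p z z1) :
    rb Ty.E false (posn δ Ty.E (p + δ)) z1 = some β ∧
    DD Ty.E false (posn δ Ty.E (p + δ)) z1 = DD Ty.F true (posn δ Ty.F p) z ∧
    (¬ broken Ty.F true (posn δ Ty.F p) β z →
      subTy Ty.E β = (subTy Ty.F β).other ∧ subP δ Ty.E (p + δ) = subP δ Ty.F p + -δ ∧
      ∃ ζ, TickRel (-δ) (subTy Ty.F β) (subP δ Ty.F p) (sub δ Ty.F true p β z) ζ ∧
        Md (subTy Ty.F β).other (subP δ Ty.F p + -δ) 0 0 Fl.n ζ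
          (sub δ Ty.E false (p + δ) β z1)) := by
  have hpF : posn δ Ty.F p = p := by simp [posn]
  have hpE : posn δ Ty.E (p + δ) = p := by simp [posn]
  have hrho1 : rho Ty.F true = 3/16 := by norm_num [rho, stg]
  have hrho2 : rho Ty.E false = 3/16 := by norm_num [rho, stg]
  have hmu : mu Ty.E false = mu Ty.F true := by norm_num [mu, stg]
  obtain ⟨hz, -, hF⟩ := h
  obtain ⟨hF1, hF2⟩ := hF rfl
  rw [hpF] at hb
  rw [hpF, hpE]
  have hrb : rb Ty.E false p z1 = rb Ty.F true p z := by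
    unfold rb
    rw [hrho1, hrho2, hz 0]
  have hDD : DD Ty.E false p z1 = DD Ty.F true p z := by
    unfold DD
    rw [hmu]
    funext k
    rw [hz]
  have hβ : β = 0 ∨ β = 1 := by
    unfold rb at hb
    split_ifs at hb
    · left
      exact (Option.some.inj hb).symm
    · right
      exact (Option.some.inj hb).symm
  refine ⟨hrb.trans hb, hDD, ?_⟩
  intro hbr
  have hsubP : subP δ Ty.F p = p := by simp [subP]
  have hsubP2 : subP δ Ty.E (p + δ) = p + -δ := by
    simp only [subP, if_neg (by decide : ¬ Ty.E = Ty.F)]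
    fin_cases δ <;> fin_cases p <;> rfl
  have hp1 : p + δ ≠ p := by
    intro hh
    apply hδ
    simpa using hh
  have hp2 : p - δ ≠ p := by
    intro hh
    apply hδ
    simpa using hh
  refine ⟨?_, ?_, ?_⟩
  · rcases hβ with h0 | h0 <;> subst h0 <;> simp [subTy, Ty.other]
  · rw [hsubP, hsubP2]
  rw [hsubP]
  -- the two states
  have hw : sub δ Ty.F true p β z = peel p β (subC Ty.F true β p z) (DD Ty.F true p z) z := by
    unfold sub
    rw [hpF]
  have hw' : sub δ Ty.E false (p + δ) β z1 =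
      peel p β (subC Ty.E false β p z1) (DD Ty.F true p z) z1 := by
    unfold sub
    rw [hpE, hDD]
  rw [hw, hw']
  set c1 : ℝ := subC Ty.F true β p z with hc1
  set c2 : ℝ := subC Ty.E false β p z1 with hc2
  set D := DD Ty.F true p z with hD
  have hws : ∀ i, i ≠ p → R05_cl (peel p β c1 D z) z i := fun i hi => R05_peel_cl p β c1 D z hi
  have hc2' : c2 = cE (3/16) (z p 1) := by
    rw [hc2]
    simp only [subC]
    rw [if_neg (by simp), hrho2, hz]
  let ζ : Stk := fun i tr => if i = p then peel p β c1 D z i tr else peel p β c2 D z1 i tr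
  have hζp : ∀ tr, ζ p tr = peel p β c1 D z p tr := fun tr => by simp [ζ]
  have hζn : ∀ i, i ≠ p → ∀ tr, ζ i tr = peel p β c2 D z1 i tr := fun i hi tr => by simp [ζ, hi]
  have hζs : ∀ i, i ≠ p → R05_cl ζ z1 i := by
    intro i hi
    have := R05_peel_cl p β c2 D z1 hi
    refine ⟨?_, ?_, ?_⟩
    · rw [hζn i hi]
      exact this.1
    · rw [hζn i hi]
      exact this.2.1
    · intro k
      rw [hζn i hi]
      exact this.2.2 k
  have hA : Mv (p + δ) (p - δ) z z1 → Mv (p + δ) (p - δ) (peel p β c1 D z) ζ :=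
    Y290_mv (hws _ hp1) (hws _ hp2) (hζs _ hp1) (hζs _ hp2)
  have hB : Mv (p - δ) (p + δ) z z1 → Mv (p - δ) (p + δ) (peel p β c1 D z) ζ :=
    Y290_mv (hws _ hp2) (hws _ hp1) (hζs _ hp2) (hζs _ hp1)
  refine ⟨ζ, ⟨hζp, ?_, ?_⟩, le_rfl, ?_, ?_, ?_, fun _ _ => 0, ?_, ?_, ?_⟩
  · intro hE
    rw [sub_neg_eq_add, ← sub_eq_add_neg]
    have hb0 : β = 0 := by
      rcases hβ with h0 | h0
      · exact h0
      · exfalso
        subst h0
        simp [subTy] at hE
    have h316 : z p 1 ≤ 3/16 := by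
      by_contra hcon
      exact hbr ⟨rfl, hb0, by rw [hrho1]; exact hcon⟩
    exact hA (hF1 (by linarith))
  · intro hE
    rw [sub_neg_eq_add, ← sub_eq_add_neg]
    have hb1 : β = 1 := by
      rcases hβ with h0 | h0
      · exfalso
        subst h0
        simp [subTy] at hE
      · exact h0
    have hc1' : c1 = cF (3/16) (z p 1) := by
      rw [hc1]
      simp only [subC]
      rw [if_pos ⟨trivial, hb1⟩, hrho1]
    rw [R05_peel_one]
    refine ⟨?_, ?_⟩
    · intro hc
      rw [hc1'] at hc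
      unfold cF at hc
      split_ifs at hc with g1 g2
      · exfalso
        linarith [g1.2]
      · exact hB (hF2 (by linarith [g2.1]))
      · exfalso
        norm_num at hc
    · intro hc
      rw [hc1'] at hc
      unfold cF at hc
      split_ifs at hc with g1 g2
      · exact hA (hF1 (by linarith [g1.1]))
      · exfalso
        linarith [g2.2]
      · exfalso
        norm_num at hc
  · intro i
    by_cases hi : i = p
    · subst hi
      rw [hζp, R05_dat_ne z z1 i β c2 c1 D hz 0 (by decide)]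
      simp
    · rw [hζn i hi]
      simp
  · intro i
    by_cases hi : i = p
    · subst hi
      rw [hζp, R05_peel_one, R05_peel_one, hc2']
      rcases hβ with h0 | h0
      · left
        have : c1 = cE (3/16) (z i 1) := by
          rw [hc1]
          simp only [subC]
          rw [if_neg (by rw [h0]; simp), hrho1]
        rw [this]
        simp
      · have hc1' : c1 = cF (3/16) (z i 1) := by
          rw [hc1]
          simp only [subC]
          rw [if_pos ⟨trivial, h0⟩, hrho1]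
        rw [hc1']
        by_cases g1 : z i 1 ≤ 3/16 ∧ 3/4 ≤ hC (lam * hC (z i 1))
        · left
          unfold cE cF
          rw [if_pos g1, if_pos g1.1]
          simp
        · by_cases g2 : 1 - 3/16 ≤ z i 1 ∧ hC (lam * (hC (z i 1) - 1)) ≤ 1/4
          · left
            unfold cE cF
            rw [if_neg g1, if_pos g2, if_neg (by linarith [g2.1]), if_pos g2.1]
            simp
          · right
            unfold cF
            rw [if_neg g1, if_neg g2]
            norm_num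
    · left
      rw [hζn i hi]
      simp
  · intro hcon
    exact absurd rfl hcon
  · intro i k
    exact le_rfl
  · simp [Fl.cre]
  · intro i k
    rw [ite_self]
    refine ⟨fun _ => Or.inr ?_, fun h => by simp at h, fun h => by simp at h⟩
    have : peel p β c2 D z1 i (dt k) = ζ i (dt k) := by
      by_cases hi : i = p
      · subst hi
        rw [hζp, R05_dat_ne z z1 i β c2 c1 D hz (dt k) ?_]
        fin_cases k <;> decide
      · rw [hζn i hi]
    rw [this, add_zero]
    exact le_max_left _ _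

end Pool.Agent.Y203.QC
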